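import Pool.Agent.MP_cccb39_co.Local

namespace Pool.Agent.MP_cccb39_co

def blockL (c : ℕ × ℕ × ℕ) : List (ℕ × Tri) := [
  (0, (0, c.1, c.2.1)), (1, (0, c.1, c.2.1)), (2, (0, c.1, c.2.1)), (3, (0, c.1, c.2.1)),
  (4, (0, c.1, c.2.1)), (5, (0, c.1, c.2.1)), (6, (0, c.1, c.2.1)), (7, (0, c.1, c.2.1)),
  (8, (0, c.1, c.2.1)), (9, (0, c.1, c.2.1)), (10, (0, c.1, c.2.1)), (11, (0, c.1, c.2.1)),
  (12, (0, c.1, c.2.1)), (13, (0, c.1, c.2.2)), (14, (0, c.1, c.2.2)), (15, (0, c.1, c.2.2)),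
  (16, (0, c.1, c.2.2)), (17, (0, c.1, c.2.2)), (18, (0, c.1, c.2.2)), (19, (0, c.1, c.2.2)),
  (20, (0, c.1, c.2.2)), (21, (0, c.1, c.2.2)), (22, (0, c.1, c.2.2)), (23, (0, c.1, c.2.2)),
  (24, (0, c.1, c.2.2)), (25, (0, c.1, c.2.2)), (26, (c.1, c.2.2, 4)), (27, (c.1, c.2.1, c.2.2)),
  (28, (c.1, c.2.1, 4)), (29, (c.1, c.2.1, c.2.2)), (30, (c.1, c.2.1, 4)), (31, (0, c.1, c.2.2)),
  (32, (c.1, c.2.2, 4)), (33, (0, c.2.1, 4)), (34, (0, c.2.1, c.2.2)), (35, (0, c.1, c.2.2)),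
  (36, (0, c.2.1, 4)), (37, (0, c.2.2, 4)), (38, (0, c.1, c.2.1)), (39, (0, c.2.2, 4)),
  (40, (0, c.2.1, c.2.2)), (41, (0, c.2.1, 4)), (42, (0, c.2.1, c.2.2)), (43, (0, c.2.1, 4)),
  (44, (0, c.1, c.2.2)), (45, (0, c.2.2, 4)), (46, (c.1, c.2.1, 4)), (47, (c.1, c.2.1, c.2.2)),
  (48, (0, c.1, c.2.2)), (49, (c.1, c.2.1, 4)), (50, (c.1, c.2.2, 4)), (51, (0, c.1, c.2.1)),
  (52, (0, c.1, c.2.1)), (53, (0, c.1, c.2.1)), (54, (0, c.1, c.2.1)), (55, (0, c.1, c.2.2)),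
  (56, (0, c.1, c.2.1)), (57, (0, c.1, c.2.2)), (58, (0, c.1, c.2.1)), (59, (0, c.1, c.2.2)),
  (60, (0, c.1, c.2.2)), (61, (0, c.1, c.2.1)), (62, (0, c.1, c.2.2)), (63, (0, c.1, c.2.1)),
  (64, (0, c.1, c.2.1)), (65, (0, c.1, c.2.2)), (66, (0, c.1, c.2.1)), (67, (0, c.1, c.2.1)),
  (68, (0, c.1, c.2.2)), (69, (0, c.1, c.2.1)), (70, (0, c.1, c.2.2)), (71, (0, c.1, c.2.2)),
  (72, (0, c.1, c.2.1)), (73, (0, c.1, c.2.2)), (74, (0, c.1, c.2.1)), (75, (0, c.1, c.2.2)),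
  (76, (0, c.1, c.2.1)), (77, (0, c.1, c.2.2)), (78, (0, c.1, c.2.1)), (79, (0, c.1, c.2.2)),
  (80, (0, c.1, c.2.1)), (81, (0, c.1, c.2.2)), (82, (0, c.1, c.2.1)), (83, (0, c.1, c.2.2)),
  (84, (0, c.1, c.2.2)), (85, (0, c.1, c.2.2)), (86, (0, c.1, c.2.2)), (87, (0, c.1, c.2.2)),
  (88, (0, c.1, c.2.2)), (89, (0, c.1, c.2.1)), (90, (0, c.1, c.2.1)), (91, (0, c.1, c.2.1)),
  (92, (0, c.1, c.2.1)), (93, (0, c.1, c.2.1)), (94, (0, c.1, c.2.1))]

def blockE : List (ℕ × ℕ) := [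
  (26, 30), (26, 31), (26, 32), (26, 33), (27, 32), (27, 33), (27, 34), (27, 35), (28, 34),
  (28, 35), (28, 36), (28, 37), (29, 36), (29, 37), (29, 38), (39, 43), (39, 44), (39, 45),
  (39, 46), (40, 45), (40, 46), (40, 47), (40, 48), (41, 47), (41, 48), (41, 49), (41, 50),
  (42, 49), (42, 50), (42, 51), (0, 30), (1, 32), (3, 34), (5, 36), (7, 43), (9, 45), (11, 47),
  (12, 49), (12, 51), (13, 30), (14, 33), (16, 37), (18, 38), (20, 43), (22, 46), (24, 50),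
  (25, 51), (0, 52), (1, 52), (13, 31), (14, 31), (1, 53), (2, 53), (14, 35), (15, 35), (2, 54),
  (3, 54), (15, 55), (16, 55), (3, 56), (4, 56), (16, 57), (17, 57), (4, 58), (5, 58), (17, 59),
  (18, 59), (5, 38), (6, 38), (18, 60), (19, 60), (6, 61), (7, 61), (19, 62), (20, 62), (7, 63),
  (8, 63), (20, 44), (21, 44), (8, 64), (9, 64), (21, 65), (22, 65), (9, 66), (10, 66), (22, 48),
  (23, 48), (10, 67), (11, 67), (23, 68), (24, 68), (11, 69), (12, 69), (24, 70), (25, 70),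
  (0, 71), (13, 72), (1, 71), (14, 72), (2, 71), (15, 72), (83, 71), (89, 72), (2, 73), (15, 74),
  (3, 73), (16, 74), (4, 73), (17, 74), (83, 73), (89, 74), (4, 75), (17, 76), (5, 75), (18, 76),
  (6, 75), (19, 76), (83, 75), (90, 76), (6, 77), (19, 78), (7, 77), (20, 78), (8, 77), (21, 78),
  (84, 77), (90, 78), (8, 79), (21, 80), (9, 79), (22, 80), (10, 79), (23, 80), (84, 79),
  (91, 80), (10, 81), (23, 82), (11, 81), (24, 82), (12, 81), (25, 82), (85, 81), (91, 82),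
  (83, 86), (84, 86), (84, 87), (85, 87), (85, 88), (25, 88), (89, 92), (90, 92), (90, 93),
  (91, 93), (89, 94), (0, 94)]

theorem block (c : ℕ × ℕ × ℕ) (hc : c ∈ cols) (T : ℕ → Tri)
    (hm : ∀ p ∈ blockL c, T p.1 ∈ Pm p.2) (he : ∀ e ∈ blockE, cp (T e.1) (T e.2) = true) :
    ori (T 91) 0 c.1 = ori (T 85) 0 c.1 := by
  simp only [blockL, List.forall_mem_cons] at hm
  simp only [blockE, List.forall_mem_cons] at he
  obtain ⟨m0, m1, m2, m3, m4, m5, m6, m7, m8, m9, m10, m11, m12, m13, m14, m15, m16, m17, m18, m19,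
    m20, m21, m22, m23, m24, m25, m26, m27, m28, m29, m30, m31, m32, m33, m34, m35, m36, m37,
    m38, m39, m40, m41, m42, m43, m44, m45, m46, m47, m48, m49, m50, m51, m52, m53, m54, m55,
    m56, m57, m58, m59, m60, m61, m62, m63, m64, m65, m66, m67, m68, m69, m70, m71, m72, m73,
    m74, m75, m76, m77, m78, m79, m80, m81, m82, m83, m84, m85, m86, m87, m88, m89, m90, m91,
    m92, m93, m94, -⟩ := hm
  obtain ⟨e0, e1, e2, e3, e4, e5, e6, e7, e8, e9, e10, e11, e12, e13, e14, e15, e16, e17, e18, e19,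
    e20, e21, e22, e23, e24, e25, e26, e27, e28, e29, e30, e31, e32, e33, e34, e35, e36, e37,
    e38, e39, e40, e41, e42, e43, e44, e45, e46, e47, e48, e49, e50, e51, e52, e53, e54, e55,
    e56, e57, e58, e59, e60, e61, e62, e63, e64, e65, e66, e67, e68, e69, e70, e71, e72, e73,
    e74, e75, e76, e77, e78, e79, e80, e81, e82, e83, e84, e85, e86, e87, e88, e89, e90, e91,
    e92, e93, e94, e95, e96, e97, e98, e99, e100, e101, e102, e103, e104, e105, e106, e107, e108,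
    e109, e110, e111, e112, e113, e114, e115, e116, e117, e118, e119, e120, e121, e122, e123,
    e124, e125, e126, e127, e128, e129, e130, e131, e132, e133, e134, e135, e136, e137, e138,
    e139, e140, e141, e142, e143, e144, e145, e146, e147, e148, e149, e150, e151, e152, e153,
    e154, -⟩ := he
  have h0 : ori (T 0) 0 c.1 = ori (T 0) 0 c.1 := rfl
  have h52 : ori (T 52) 0 c.1 = ori (T 0) 0 c.1 := (hardA c hc _ m0 _ m52 e47).trans h0
  have h94 : ori (T 94) 0 c.1 = ori (T 0) 0 c.1 := (hardA c hc _ m0 _ m94 e154).trans h0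
  have h1 : ori (T 1) 0 c.1 = ori (T 0) 0 c.1 :=
    (hardA c hc _ m1 _ m52 e48).symm.trans h52
  have h89 : ori (T 89) 0 c.1 = ori (T 0) 0 c.1 :=
    (hardA c hc _ m89 _ m94 e153).symm.trans h94
  have h53 : ori (T 53) 0 c.1 = ori (T 0) 0 c.1 := (hardA c hc _ m1 _ m53 e51).trans h1
  have h72 : ori (T 72) 0 c.1 = ori (T 0) 0 c.1 := (hardA c hc _ m89 _ m72 e102).trans h89
  have h74 : ori (T 74) 0 c.1 = ori (T 0) 0 c.1 := (hardA c hc _ m89 _ m74 e110).trans h89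
  have h92 : ori (T 92) 0 c.1 = ori (T 0) 0 c.1 := (hardA c hc _ m89 _ m92 e149).trans h89
  have h2 : ori (T 2) 0 c.1 = ori (T 0) 0 c.1 :=
    (hardA c hc _ m2 _ m53 e52).symm.trans h53
  have h90 : ori (T 90) 0 c.1 = ori (T 0) 0 c.1 :=
    (hardA c hc _ m90 _ m92 e150).symm.trans h92
  have h54 : ori (T 54) 0 c.1 = ori (T 0) 0 c.1 := (hardA c hc _ m2 _ m54 e55).trans h2
  have h76 : ori (T 76) 0 c.1 = ori (T 0) 0 c.1 := (hardA c hc _ m90 _ m76 e118).trans h90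
  have h78 : ori (T 78) 0 c.1 = ori (T 0) 0 c.1 := (hardA c hc _ m90 _ m78 e126).trans h90
  have h93 : ori (T 93) 0 c.1 = ori (T 0) 0 c.1 := (hardA c hc _ m90 _ m93 e151).trans h90
  have h3 : ori (T 3) 0 c.1 = ori (T 0) 0 c.1 :=
    (hardA c hc _ m3 _ m54 e56).symm.trans h54
  have h91 : ori (T 91) 0 c.1 = ori (T 0) 0 c.1 :=
    (hardA c hc _ m91 _ m93 e152).symm.trans h93
  have h56 : ori (T 56) 0 c.1 = ori (T 0) 0 c.1 := (hardA c hc _ m3 _ m56 e59).trans h3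
  have h80 : ori (T 80) 0 c.1 = ori (T 0) 0 c.1 := (hardA c hc _ m91 _ m80 e134).trans h91
  have h82 : ori (T 82) 0 c.1 = ori (T 0) 0 c.1 := (hardA c hc _ m91 _ m82 e142).trans h91
  have h4 : ori (T 4) 0 c.1 = ori (T 0) 0 c.1 :=
    (hardA c hc _ m4 _ m56 e60).symm.trans h56
  have h58 : ori (T 58) 0 c.1 = ori (T 0) 0 c.1 := (hardA c hc _ m4 _ m58 e63).trans h4
  have h5 : ori (T 5) 0 c.1 = ori (T 0) 0 c.1 :=
    (hardA c hc _ m5 _ m58 e64).symm.trans h58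
  have h38 : ori (T 38) 0 c.1 = ori (T 0) 0 c.1 := (hardA c hc _ m5 _ m38 e67).trans h5
  have h6 : ori (T 6) 0 c.1 = ori (T 0) 0 c.1 :=
    (hardA c hc _ m6 _ m38 e68).symm.trans h38
  have h61 : ori (T 61) 0 c.1 = ori (T 0) 0 c.1 := (hardA c hc _ m6 _ m61 e71).trans h6
  have h7 : ori (T 7) 0 c.1 = ori (T 0) 0 c.1 :=
    (hardA c hc _ m7 _ m61 e72).symm.trans h61
  have h63 : ori (T 63) 0 c.1 = ori (T 0) 0 c.1 := (hardA c hc _ m7 _ m63 e75).trans h7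
  have h8 : ori (T 8) 0 c.1 = ori (T 0) 0 c.1 :=
    (hardA c hc _ m8 _ m63 e76).symm.trans h63
  have h64 : ori (T 64) 0 c.1 = ori (T 0) 0 c.1 := (hardA c hc _ m8 _ m64 e79).trans h8
  have h9 : ori (T 9) 0 c.1 = ori (T 0) 0 c.1 :=
    (hardA c hc _ m9 _ m64 e80).symm.trans h64
  have h66 : ori (T 66) 0 c.1 = ori (T 0) 0 c.1 := (hardA c hc _ m9 _ m66 e83).trans h9
  have h10 : ori (T 10) 0 c.1 = ori (T 0) 0 c.1 :=
    (hardA c hc _ m10 _ m66 e84).symm.trans h66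
  have h67 : ori (T 67) 0 c.1 = ori (T 0) 0 c.1 := (hardA c hc _ m10 _ m67 e87).trans h10
  have h11 : ori (T 11) 0 c.1 = ori (T 0) 0 c.1 :=
    (hardA c hc _ m11 _ m67 e88).symm.trans h67
  have h69 : ori (T 69) 0 c.1 = ori (T 0) 0 c.1 := (hardA c hc _ m11 _ m69 e91).trans h11
  have h12 : ori (T 12) 0 c.1 = ori (T 0) 0 c.1 :=
    (hardA c hc _ m12 _ m69 e92).symm.trans h69
  have h51 : ori (T 51) 0 c.1 = ori (T 0) 0 c.1 := (hardA c hc _ m12 _ m51 e38).trans h12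
  have h13 : ori (T 13) 0 c.1 = ori (T 13) 0 c.1 := rfl
  have h31 : ori (T 31) 0 c.1 = ori (T 13) 0 c.1 := (hardB c hc _ m13 _ m31 e49).trans h13
  have h14 : ori (T 14) 0 c.1 = ori (T 13) 0 c.1 :=
    (hardB c hc _ m14 _ m31 e50).symm.trans h31
  have h35 : ori (T 35) 0 c.1 = ori (T 13) 0 c.1 := (hardB c hc _ m14 _ m35 e53).trans h14
  have h15 : ori (T 15) 0 c.1 = ori (T 13) 0 c.1 :=
    (hardB c hc _ m15 _ m35 e54).symm.trans h35
  have h55 : ori (T 55) 0 c.1 = ori (T 13) 0 c.1 := (hardB c hc _ m15 _ m55 e57).trans h15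
  have h16 : ori (T 16) 0 c.1 = ori (T 13) 0 c.1 :=
    (hardB c hc _ m16 _ m55 e58).symm.trans h55
  have h57 : ori (T 57) 0 c.1 = ori (T 13) 0 c.1 := (hardB c hc _ m16 _ m57 e61).trans h16
  have h17 : ori (T 17) 0 c.1 = ori (T 13) 0 c.1 :=
    (hardB c hc _ m17 _ m57 e62).symm.trans h57
  have h59 : ori (T 59) 0 c.1 = ori (T 13) 0 c.1 := (hardB c hc _ m17 _ m59 e65).trans h17
  have h18 : ori (T 18) 0 c.1 = ori (T 13) 0 c.1 :=
    (hardB c hc _ m18 _ m59 e66).symm.trans h59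
  have h60 : ori (T 60) 0 c.1 = ori (T 13) 0 c.1 := (hardB c hc _ m18 _ m60 e69).trans h18
  have h19 : ori (T 19) 0 c.1 = ori (T 13) 0 c.1 :=
    (hardB c hc _ m19 _ m60 e70).symm.trans h60
  have h62 : ori (T 62) 0 c.1 = ori (T 13) 0 c.1 := (hardB c hc _ m19 _ m62 e73).trans h19
  have h20 : ori (T 20) 0 c.1 = ori (T 13) 0 c.1 :=
    (hardB c hc _ m20 _ m62 e74).symm.trans h62
  have h44 : ori (T 44) 0 c.1 = ori (T 13) 0 c.1 := (hardB c hc _ m20 _ m44 e77).trans h20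
  have h21 : ori (T 21) 0 c.1 = ori (T 13) 0 c.1 :=
    (hardB c hc _ m21 _ m44 e78).symm.trans h44
  have h65 : ori (T 65) 0 c.1 = ori (T 13) 0 c.1 := (hardB c hc _ m21 _ m65 e81).trans h21
  have h22 : ori (T 22) 0 c.1 = ori (T 13) 0 c.1 :=
    (hardB c hc _ m22 _ m65 e82).symm.trans h65
  have h48 : ori (T 48) 0 c.1 = ori (T 13) 0 c.1 := (hardB c hc _ m22 _ m48 e85).trans h22
  have h23 : ori (T 23) 0 c.1 = ori (T 13) 0 c.1 :=
    (hardB c hc _ m23 _ m48 e86).symm.trans h48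
  have h68 : ori (T 68) 0 c.1 = ori (T 13) 0 c.1 := (hardB c hc _ m23 _ m68 e89).trans h23
  have h24 : ori (T 24) 0 c.1 = ori (T 13) 0 c.1 :=
    (hardB c hc _ m24 _ m68 e90).symm.trans h68
  have h70 : ori (T 70) 0 c.1 = ori (T 13) 0 c.1 := (hardB c hc _ m24 _ m70 e93).trans h24
  have h25 : ori (T 25) 0 c.1 = ori (T 13) 0 c.1 :=
    (hardB c hc _ m25 _ m70 e94).symm.trans h70
  have h88 : ori (T 88) 0 c.1 = ori (T 13) 0 c.1 := (hardB c hc _ m25 _ m88 e148).trans h25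
  have h85 : ori (T 85) 0 c.1 = ori (T 13) 0 c.1 :=
    (hardB c hc _ m85 _ m88 e147).symm.trans h88
  have h81 : ori (T 81) 0 c.1 = ori (T 13) 0 c.1 := (hardB c hc _ m85 _ m81 e141).trans h85
  have h87 : ori (T 87) 0 c.1 = ori (T 13) 0 c.1 := (hardB c hc _ m85 _ m87 e146).trans h85
  have h84 : ori (T 84) 0 c.1 = ori (T 13) 0 c.1 :=
    (hardB c hc _ m84 _ m87 e145).symm.trans h87
  have h77 : ori (T 77) 0 c.1 = ori (T 13) 0 c.1 := (hardB c hc _ m84 _ m77 e125).trans h84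
  have h79 : ori (T 79) 0 c.1 = ori (T 13) 0 c.1 := (hardB c hc _ m84 _ m79 e133).trans h84
  have h86 : ori (T 86) 0 c.1 = ori (T 13) 0 c.1 := (hardB c hc _ m84 _ m86 e144).trans h84
  have h83 : ori (T 83) 0 c.1 = ori (T 13) 0 c.1 :=
    (hardB c hc _ m83 _ m86 e143).symm.trans h86
  have h71 : ori (T 71) 0 c.1 = ori (T 13) 0 c.1 := (hardB c hc _ m83 _ m71 e101).trans h83
  have h73 : ori (T 73) 0 c.1 = ori (T 13) 0 c.1 := (hardB c hc _ m83 _ m73 e109).trans h83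
  have h75 : ori (T 75) 0 c.1 = ori (T 13) 0 c.1 := (hardB c hc _ m83 _ m75 e117).trans h83
  rw [h91, h85]
  by_contra hne
  have hne2 : ori (T 13) 0 c.1 ≠ ori (T 0) 0 c.1 := fun h => hne h.symm
  have q0 : T 0 = T 0 := rfl
  have q1 : T 1 = T 0 := (linkA c hc _ m0 _ m1 _ m71 e95 e97 (by rw [h0, h71]; exact hne)
    (by rw [h1, h71]; exact hne)).trans q0
  have q2 : T 2 = T 0 := (linkA c hc _ m0 _ m2 _ m71 e95 e99 (by rw [h0, h71]; exact hne)
    (by rw [h2, h71]; exact hne)).trans q0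
  have q3 : T 3 = T 0 := (linkA c hc _ m2 _ m3 _ m73 e103 e105 (by rw [h2, h73]; exact hne)
    (by rw [h3, h73]; exact hne)).trans q2
  have q4 : T 4 = T 0 := (linkA c hc _ m2 _ m4 _ m73 e103 e107 (by rw [h2, h73]; exact hne)
    (by rw [h4, h73]; exact hne)).trans q2
  have q5 : T 5 = T 0 := (linkA c hc _ m4 _ m5 _ m75 e111 e113 (by rw [h4, h75]; exact hne)
    (by rw [h5, h75]; exact hne)).trans q4
  have q6 : T 6 = T 0 := (linkA c hc _ m4 _ m6 _ m75 e111 e115 (by rw [h4, h75]; exact hne)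
    (by rw [h6, h75]; exact hne)).trans q4
  have q7 : T 7 = T 0 := (linkA c hc _ m6 _ m7 _ m77 e119 e121 (by rw [h6, h77]; exact hne)
    (by rw [h7, h77]; exact hne)).trans q6
  have q8 : T 8 = T 0 := (linkA c hc _ m6 _ m8 _ m77 e119 e123 (by rw [h6, h77]; exact hne)
    (by rw [h8, h77]; exact hne)).trans q6
  have q9 : T 9 = T 0 := (linkA c hc _ m8 _ m9 _ m79 e127 e129 (by rw [h8, h79]; exact hne)
    (by rw [h9, h79]; exact hne)).trans q8
  have q10 : T 10 = T 0 := (linkA c hc _ m8 _ m10 _ m79 e127 e131 (by rw [h8, h79]; exact hne)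
    (by rw [h10, h79]; exact hne)).trans q8
  have q11 : T 11 = T 0 := (linkA c hc _ m10 _ m11 _ m81 e135 e137 (by rw [h10, h81]; exact hne)
    (by rw [h11, h81]; exact hne)).trans q10
  have q12 : T 12 = T 0 := (linkA c hc _ m10 _ m12 _ m81 e135 e139 (by rw [h10, h81]; exact hne)
    (by rw [h12, h81]; exact hne)).trans q10
  have q13 : T 13 = T 13 := rfl
  have q14 : T 14 = T 13 := (linkB c hc _ m13 _ m14 _ m72 e96 e98 (by rw [h13, h72]; exact hne2)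
    (by rw [h14, h72]; exact hne2)).trans q13
  have q15 : T 15 = T 13 := (linkB c hc _ m13 _ m15 _ m72 e96 e100 (by rw [h13, h72]; exact hne2)
    (by rw [h15, h72]; exact hne2)).trans q13
  have q16 : T 16 = T 13 := (linkB c hc _ m15 _ m16 _ m74 e104 e106 (by rw [h15, h74]; exact hne2)
    (by rw [h16, h74]; exact hne2)).trans q15
  have q17 : T 17 = T 13 := (linkB c hc _ m15 _ m17 _ m74 e104 e108 (by rw [h15, h74]; exact hne2)
    (by rw [h17, h74]; exact hne2)).trans q15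
  have q18 : T 18 = T 13 := (linkB c hc _ m17 _ m18 _ m76 e112 e114 (by rw [h17, h76]; exact hne2)
    (by rw [h18, h76]; exact hne2)).trans q17
  have q19 : T 19 = T 13 := (linkB c hc _ m17 _ m19 _ m76 e112 e116 (by rw [h17, h76]; exact hne2)
    (by rw [h19, h76]; exact hne2)).trans q17
  have q20 : T 20 = T 13 := (linkB c hc _ m19 _ m20 _ m78 e120 e122 (by rw [h19, h78]; exact hne2)
    (by rw [h20, h78]; exact hne2)).trans q19
  have q21 : T 21 = T 13 := (linkB c hc _ m19 _ m21 _ m78 e120 e124 (by rw [h19, h78]; exact hne2)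
    (by rw [h21, h78]; exact hne2)).trans q19
  have q22 : T 22 = T 13 := (linkB c hc _ m21 _ m22 _ m80 e128 e130 (by rw [h21, h80]; exact hne2)
    (by rw [h22, h80]; exact hne2)).trans q21
  have q23 : T 23 = T 13 := (linkB c hc _ m21 _ m23 _ m80 e128 e132 (by rw [h21, h80]; exact hne2)
    (by rw [h23, h80]; exact hne2)).trans q21
  have q24 : T 24 = T 13 := (linkB c hc _ m23 _ m24 _ m82 e136 e138 (by rw [h23, h82]; exact hne2)
    (by rw [h24, h82]; exact hne2)).trans q23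
  have q25 : T 25 = T 13 := (linkB c hc _ m23 _ m25 _ m82 e136 e140 (by rw [h23, h82]; exact hne2)
    (by rw [h25, h82]; exact hne2)).trans q23
  have g0 : sp (T 0) (T 13) c.1 = true := by
    by_contra hs
    exact gad0 c hc _ m0 _ m13 hne (by simpa using hs)
      _ m26 ⟨_, m30, e30, e39, e0⟩
      ⟨_, m31, e49, e49, e1⟩
      _ m27 ⟨_, m32, (by rw [← q1]; exact e31), e2, e4⟩
      ⟨_, m33, (by rw [← q14]; exact e40), e3, e5⟩
      _ m28 ⟨_, m34, (by rw [← q3]; exact e32), e6, e8⟩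
      ⟨_, m35, (by rw [← q14]; exact e53), e7, e9⟩
      _ m29 ⟨_, m36, (by rw [← q5]; exact e33), e10, e12⟩
      ⟨_, m37, (by rw [← q16]; exact e41), e11, e13⟩
      ⟨_, m38, (by rw [← q5]; exact e67), (by rw [← q18]; exact e42), e14⟩
  have g1 : sp (T 0) (T 13) 0 = true := by
    by_contra hs
    exact gad1 c hc _ m0 _ m13 hne (by simpa using hs)
      _ m39 ⟨_, m43, (by rw [← q7]; exact e34), (by rw [← q20]; exact e43), e15⟩
      ⟨_, m44, (by rw [← q20]; exact e77), (by rw [← q20]; exact e77), e16⟩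
      _ m40 ⟨_, m45, (by rw [← q9]; exact e35), e17, e19⟩
      ⟨_, m46, (by rw [← q22]; exact e44), e18, e20⟩
      _ m41 ⟨_, m47, (by rw [← q11]; exact e36), e21, e23⟩
      ⟨_, m48, (by rw [← q22]; exact e85), e22, e24⟩
      _ m42 ⟨_, m49, (by rw [← q12]; exact e37), e25, e27⟩
      ⟨_, m50, (by rw [← q24]; exact e45), e26, e28⟩
      ⟨_, m51, (by rw [← q12]; exact e38), (by rw [← q25]; exact e46), e29⟩
  exact hne (both c hc _ m0 _ m13 g1 g0)

end Pool.Agent.MP_cccb39_co
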