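import Pool.Agent.MP_cccb39_co.Data

namespace Pool.Agent.MP_cccb39_co

theorem chk_segs : chk segs = true := by decide +kernel

end Pool.Agent.MP_cccb39_co
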