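import Pool.Agent.MP_cccb39_co.Data

namespace Pool.Agent.MP_cccb39_co

theorem chk_pts : segs.all (fun s => posL.all (fun w => sep1 s.1 s.2 w w)) = true := by
  decide +kernel

end Pool.Agent.MP_cccb39_co
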