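import Mathlib

namespace Pool.Agent.MP_cccb39_co

abbrev Pt := ℕ × ℕ

def toR (p : Pt) : ℝ × ℝ := ((p.1 : ℝ), (p.2 : ℝ))

def rng (a b c d : ℕ) : Bool :=
  !(Nat.beq a b) && ((Nat.ble a c && Nat.ble a d && Nat.ble b c && Nat.ble b d) ||
    (Nat.ble c a && Nat.ble d a && Nat.ble c b && Nat.ble d b))

def dP (p q r : Pt) : ℕ := q.1 * r.2 + p.1 * q.2 + r.1 * p.2

def dM (p q r : Pt) : ℕ := q.1 * p.2 + p.1 * r.2 + r.1 * q.2

def sep1 (a b c d : Pt) : Bool :=
  rng a.1 b.1 c.1 d.1 || rng a.2 b.2 c.2 d.2 ||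
    (Nat.ble (dM a b c) (dP a b c) && Nat.ble (dM a b d) (dP a b d) &&
      Nat.blt (dM a b c + dM a b d) (dP a b c + dP a b d)) ||
    (Nat.ble (dP a b c) (dM a b c) && Nat.ble (dP a b d) (dM a b d) &&
      Nat.blt (dP a b c + dP a b d) (dM a b c + dM a b d))

theorem rng_sound {a b c d : ℕ} (h : rng a b c d = true) {s t u v : ℝ} (hs : 0 < s) (ht : 0 < t)
    (hst : s + t = 1) (hu : 0 < u) (hv : 0 < v) (huv : u + v = 1)
    (e : s * a + t * b = u * c + v * d) : False := by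
  simp only [rng, Bool.and_eq_true, Bool.or_eq_true, Bool.not_eq_true', Nat.ble_eq] at h
  obtain ⟨hne, h⟩ := h
  have hne' : (a : ℝ) ≠ b := by exact_mod_cast Nat.ne_of_beq_eq_false hne
  obtain rfl : s = 1 - t := by linarith
  obtain rfl : u = 1 - v := by linarith
  rcases h with ⟨⟨⟨h1, h2⟩, h3⟩, h4⟩ | ⟨⟨⟨h1, h2⟩, h3⟩, h4⟩
  all_goals
    have h1' := (Nat.cast_le (α := ℝ)).2 h1
    have h2' := (Nat.cast_le (α := ℝ)).2 h2
    have h3' := (Nat.cast_le (α := ℝ)).2 h3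
    have h4' := (Nat.cast_le (α := ℝ)).2 h4
    rcases lt_or_gt_of_ne hne' with hl | hl
    · nlinarith [mul_pos hs (sub_pos.2 hl), mul_pos ht (sub_pos.2 hl),
        mul_nonneg hu.le (sub_nonneg.2 h1'), mul_nonneg hv.le (sub_nonneg.2 h2'),
        mul_nonneg hu.le (sub_nonneg.2 h3'), mul_nonneg hv.le (sub_nonneg.2 h4')]
    · nlinarith [mul_pos hs (sub_pos.2 hl), mul_pos ht (sub_pos.2 hl),
        mul_nonneg hu.le (sub_nonneg.2 h1'), mul_nonneg hv.le (sub_nonneg.2 h2'),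
        mul_nonneg hu.le (sub_nonneg.2 h3'), mul_nonneg hv.le (sub_nonneg.2 h4')]

theorem pos_comb {x y u v : ℝ} (hu : 0 < u) (hv : 0 < v) (hx : 0 ≤ x) (hy : 0 ≤ y)
    (hxy : 0 < x + y) : 0 < u * x + v * y := by
  rcases hx.eq_or_lt with h | h
  · have : 0 < y := by linarith
    have := mul_pos hv this
    rw [← h]; linarith
  · have := mul_pos hu h
    have := mul_nonneg hv.le hy
    linarith

theorem sep1_sound {a b c d : Pt} (h : sep1 a b c d = true) :
    Disjoint (openSegment ℝ (toR a) (toR b)) (openSegment ℝ (toR c) (toR d)) := by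
  rw [Set.disjoint_left]
  rintro z ⟨s, t, hs, ht, hst, rfl⟩ ⟨u, v, hu, hv, huv, e⟩
  have e1 : s * a.1 + t * b.1 = u * c.1 + v * d.1 := by
    simpa [toR] using (congrArg Prod.fst e).symm
  have e2 : s * a.2 + t * b.2 = u * c.2 + v * d.2 := by
    simpa [toR] using (congrArg Prod.snd e).symm
  have key : u * ((dP a b c : ℝ) - dM a b c) + v * ((dP a b d : ℝ) - dM a b d) = 0 := by
    simp only [dP, dM]
    push_cast
    obtain rfl : s = 1 - t := by linarith
    obtain rfl : u = 1 - v := by linarith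
    linear_combination ((b.2 : ℝ) - a.2) * e1 - ((b.1 : ℝ) - a.1) * e2
  simp only [sep1, Bool.or_eq_true, Bool.and_eq_true, Nat.ble_eq, Nat.blt_eq] at h
  rcases h with ((h | h) | ⟨⟨h1, h2⟩, h3⟩) | ⟨⟨h1, h2⟩, h3⟩
  · exact rng_sound h hs ht hst hu hv huv e1
  · exact rng_sound h hs ht hst hu hv huv e2
  · have h1' := (Nat.cast_le (α := ℝ)).2 h1
    have h2' := (Nat.cast_le (α := ℝ)).2 h2
    have h3' := (Nat.cast_lt (α := ℝ)).2 h3
    push_cast at h3'
    have := pos_comb hu hv (sub_nonneg.2 h1') (sub_nonneg.2 h2') (by linarith)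
    linarith
  · have h1' := (Nat.cast_le (α := ℝ)).2 h1
    have h2' := (Nat.cast_le (α := ℝ)).2 h2
    have h3' := (Nat.cast_lt (α := ℝ)).2 h3
    push_cast at h3'
    have := pos_comb hu hv (sub_nonneg.2 h1') (sub_nonneg.2 h2') (by linarith)
    linarith

end Pool.Agent.MP_cccb39_co
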