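import Pool.Agent.MP_cccb39_co.Block
import Pool.Agent.MP_cccb39_co.Sep

namespace Pool.Agent.MP_cccb39_co

def edges : List (ℕ × ℕ) :=
  blockE ++ blockE.map (fun e => (95 + e.1, 95 + e.2)) ++
    blockE.map (fun e => (190 + e.1, 190 + e.2)) ++
    [(91, 285), (180, 285), (186, 286), (275, 286), (281, 287), (85, 287)]

def posL : List Pt := [
  (20, 20), (20, 38), (20, 46), (20, 54), (20, 62), (20, 70), (20, 100), (20, 116), (20, 124),
  (20, 134), (20, 142), (20, 150), (20, 170), (60, 16), (60, 38), (60, 62), (60, 70), (60, 78),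
  (60, 88), (60, 100), (60, 116), (60, 128), (60, 134), (60, 158), (60, 166), (60, 184),
  (40, 30), (40, 46), (40, 62), (40, 78), (40, 20), (48, 28), (34, 38), (46, 38), (34, 54),
  (46, 54), (34, 70), (46, 70), (40, 88), (40, 126), (40, 142), (40, 158), (40, 174), (40, 116),
  (48, 124), (34, 134), (46, 134), (34, 150), (46, 150), (34, 166), (46, 166), (40, 184),
  (23, 29), (23, 42), (23, 50), (57, 66), (23, 58), (57, 74), (23, 66), (57, 83), (57, 94),
  (23, 108), (57, 108), (23, 120), (23, 129), (57, 131), (23, 138), (23, 146), (57, 162),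
  (23, 160), (57, 175), (14, 38), (66, 38), (14, 54), (66, 70), (14, 70), (66, 88), (14, 116),
  (66, 116), (14, 134), (66, 134), (14, 150), (66, 166), (8, 54), (8, 125), (8, 200), (4, 90),
  (4, 160), (40, 198), (72, 30), (72, 100), (72, 200), (76, 70), (76, 150), (64, 2), (120, 20),
  (120, 38), (120, 46), (120, 54), (120, 62), (120, 70), (120, 100), (120, 116), (120, 124),
  (120, 134), (120, 142), (120, 150), (120, 170), (160, 16), (160, 38), (160, 62), (160, 70),
  (160, 78), (160, 88), (160, 100), (160, 116), (160, 128), (160, 134), (160, 158), (160, 166),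
  (160, 184), (140, 30), (140, 46), (140, 62), (140, 78), (140, 20), (148, 28), (134, 38),
  (146, 38), (134, 54), (146, 54), (134, 70), (146, 70), (140, 88), (140, 126), (140, 142),
  (140, 158), (140, 174), (140, 116), (148, 124), (134, 134), (146, 134), (134, 150), (146, 150),
  (134, 166), (146, 166), (140, 184), (123, 29), (123, 42), (123, 50), (157, 66), (123, 58),
  (157, 74), (123, 66), (157, 83), (157, 94), (123, 108), (157, 108), (123, 120), (123, 129),
  (157, 131), (123, 138), (123, 146), (157, 162), (123, 160), (157, 175), (114, 38), (166, 38),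
  (114, 54), (166, 70), (114, 70), (166, 88), (114, 116), (166, 116), (114, 134), (166, 134),
  (114, 150), (166, 166), (108, 54), (108, 125), (108, 200), (104, 90), (104, 160), (140, 198),
  (172, 30), (172, 100), (172, 200), (176, 70), (176, 150), (164, 2), (220, 20), (220, 38),
  (220, 46), (220, 54), (220, 62), (220, 70), (220, 100), (220, 116), (220, 124), (220, 134),
  (220, 142), (220, 150), (220, 170), (260, 16), (260, 38), (260, 62), (260, 70), (260, 78),
  (260, 88), (260, 100), (260, 116), (260, 128), (260, 134), (260, 158), (260, 166), (260, 184),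
  (240, 30), (240, 46), (240, 62), (240, 78), (240, 20), (248, 28), (234, 38), (246, 38),
  (234, 54), (246, 54), (234, 70), (246, 70), (240, 88), (240, 126), (240, 142), (240, 158),
  (240, 174), (240, 116), (248, 124), (234, 134), (246, 134), (234, 150), (246, 150), (234, 166),
  (246, 166), (240, 184), (223, 29), (223, 42), (223, 50), (257, 66), (223, 58), (257, 74),
  (223, 66), (257, 83), (257, 94), (223, 108), (257, 108), (223, 120), (223, 129), (257, 131),
  (223, 138), (223, 146), (257, 162), (223, 160), (257, 175), (214, 38), (266, 38), (214, 54),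
  (266, 70), (214, 70), (266, 88), (214, 116), (266, 116), (214, 134), (266, 134), (214, 150),
  (266, 166), (208, 54), (208, 125), (208, 200), (204, 90), (204, 160), (240, 198), (272, 30),
  (272, 100), (272, 200), (276, 70), (276, 150), (264, 2), (90, 204), (190, 204), (140, 400)]

def lstL : List Tri := [
  (0, 1, 2), (0, 1, 2), (0, 1, 2), (0, 1, 2), (0, 1, 2), (0, 1, 2), (0, 1, 2), (0, 1, 2),
  (0, 1, 2), (0, 1, 2), (0, 1, 2), (0, 1, 2), (0, 1, 2), (0, 1, 3), (0, 1, 3), (0, 1, 3),
  (0, 1, 3), (0, 1, 3), (0, 1, 3), (0, 1, 3), (0, 1, 3), (0, 1, 3), (0, 1, 3), (0, 1, 3),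
  (0, 1, 3), (0, 1, 3), (1, 3, 4), (1, 2, 3), (1, 2, 4), (1, 2, 3), (1, 2, 4), (0, 1, 3),
  (1, 3, 4), (0, 2, 4), (0, 2, 3), (0, 1, 3), (0, 2, 4), (0, 3, 4), (0, 1, 2), (0, 3, 4),
  (0, 2, 3), (0, 2, 4), (0, 2, 3), (0, 2, 4), (0, 1, 3), (0, 3, 4), (1, 2, 4), (1, 2, 3),
  (0, 1, 3), (1, 2, 4), (1, 3, 4), (0, 1, 2), (0, 1, 2), (0, 1, 2), (0, 1, 2), (0, 1, 3),
  (0, 1, 2), (0, 1, 3), (0, 1, 2), (0, 1, 3), (0, 1, 3), (0, 1, 2), (0, 1, 3), (0, 1, 2),
  (0, 1, 2), (0, 1, 3), (0, 1, 2), (0, 1, 2), (0, 1, 3), (0, 1, 2), (0, 1, 3), (0, 1, 3),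
  (0, 1, 2), (0, 1, 3), (0, 1, 2), (0, 1, 3), (0, 1, 2), (0, 1, 3), (0, 1, 2), (0, 1, 3),
  (0, 1, 2), (0, 1, 3), (0, 1, 2), (0, 1, 3), (0, 1, 3), (0, 1, 3), (0, 1, 3), (0, 1, 3),
  (0, 1, 3), (0, 1, 2), (0, 1, 2), (0, 1, 2), (0, 1, 2), (0, 1, 2), (0, 1, 2), (0, 2, 3),
  (0, 2, 3), (0, 2, 3), (0, 2, 3), (0, 2, 3), (0, 2, 3), (0, 2, 3), (0, 2, 3), (0, 2, 3),
  (0, 2, 3), (0, 2, 3), (0, 2, 3), (0, 2, 3), (0, 2, 1), (0, 2, 1), (0, 2, 1), (0, 2, 1),
  (0, 2, 1), (0, 2, 1), (0, 2, 1), (0, 2, 1), (0, 2, 1), (0, 2, 1), (0, 2, 1), (0, 2, 1),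
  (0, 2, 1), (2, 1, 4), (2, 3, 1), (2, 3, 4), (2, 3, 1), (2, 3, 4), (0, 2, 1), (2, 1, 4),
  (0, 3, 4), (0, 3, 1), (0, 2, 1), (0, 3, 4), (0, 1, 4), (0, 2, 3), (0, 1, 4), (0, 3, 1),
  (0, 3, 4), (0, 3, 1), (0, 3, 4), (0, 2, 1), (0, 1, 4), (2, 3, 4), (2, 3, 1), (0, 2, 1),
  (2, 3, 4), (2, 1, 4), (0, 2, 3), (0, 2, 3), (0, 2, 3), (0, 2, 3), (0, 2, 1), (0, 2, 3),
  (0, 2, 1), (0, 2, 3), (0, 2, 1), (0, 2, 1), (0, 2, 3), (0, 2, 1), (0, 2, 3), (0, 2, 3),
  (0, 2, 1), (0, 2, 3), (0, 2, 3), (0, 2, 1), (0, 2, 3), (0, 2, 1), (0, 2, 1), (0, 2, 3),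
  (0, 2, 1), (0, 2, 3), (0, 2, 1), (0, 2, 3), (0, 2, 1), (0, 2, 3), (0, 2, 1), (0, 2, 3),
  (0, 2, 1), (0, 2, 3), (0, 2, 1), (0, 2, 1), (0, 2, 1), (0, 2, 1), (0, 2, 1), (0, 2, 1),
  (0, 2, 3), (0, 2, 3), (0, 2, 3), (0, 2, 3), (0, 2, 3), (0, 2, 3), (0, 3, 1), (0, 3, 1),
  (0, 3, 1), (0, 3, 1), (0, 3, 1), (0, 3, 1), (0, 3, 1), (0, 3, 1), (0, 3, 1), (0, 3, 1),
  (0, 3, 1), (0, 3, 1), (0, 3, 1), (0, 3, 2), (0, 3, 2), (0, 3, 2), (0, 3, 2), (0, 3, 2),
  (0, 3, 2), (0, 3, 2), (0, 3, 2), (0, 3, 2), (0, 3, 2), (0, 3, 2), (0, 3, 2), (0, 3, 2),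
  (3, 2, 4), (3, 1, 2), (3, 1, 4), (3, 1, 2), (3, 1, 4), (0, 3, 2), (3, 2, 4), (0, 1, 4),
  (0, 1, 2), (0, 3, 2), (0, 1, 4), (0, 2, 4), (0, 3, 1), (0, 2, 4), (0, 1, 2), (0, 1, 4),
  (0, 1, 2), (0, 1, 4), (0, 3, 2), (0, 2, 4), (3, 1, 4), (3, 1, 2), (0, 3, 2), (3, 1, 4),
  (3, 2, 4), (0, 3, 1), (0, 3, 1), (0, 3, 1), (0, 3, 1), (0, 3, 2), (0, 3, 1), (0, 3, 2),
  (0, 3, 1), (0, 3, 2), (0, 3, 2), (0, 3, 1), (0, 3, 2), (0, 3, 1), (0, 3, 1), (0, 3, 2),
  (0, 3, 1), (0, 3, 1), (0, 3, 2), (0, 3, 1), (0, 3, 2), (0, 3, 2), (0, 3, 1), (0, 3, 2),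
  (0, 3, 1), (0, 3, 2), (0, 3, 1), (0, 3, 2), (0, 3, 1), (0, 3, 2), (0, 3, 1), (0, 3, 2),
  (0, 3, 1), (0, 3, 2), (0, 3, 2), (0, 3, 2), (0, 3, 2), (0, 3, 2), (0, 3, 2), (0, 3, 1),
  (0, 3, 1), (0, 3, 1), (0, 3, 1), (0, 3, 1), (0, 3, 1), (0, 1, 2), (0, 2, 3), (0, 3, 1)]

def colL : List Bool := [
  true, true, true, true, true, true, true, true, true, true, true, true, true, true, true, true,
  true, true, true, true, true, true, true, true, true, true, true, true, true, true, false,
  false, false, false, false, false, false, false, false, true, true, true, true, false, false,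
  false, false, false, false, false, false, false, false, false, false, false, false, false,
  false, false, false, false, false, false, false, false, false, false, false, false, false,
  false, false, false, false, false, false, false, false, false, false, false, false, true, true,
  true, false, false, false, true, true, true, false, false, false, true, true, true, true, true,
  true, true, true, true, true, true, true, true, true, true, true, true, true, true, true, true,
  true, true, true, true, true, true, true, true, true, false, false, false, false, false, false,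
  false, false, false, true, true, true, true, false, false, false, false, false, false, false,
  false, false, false, false, false, false, false, false, false, false, false, false, false,
  false, false, false, false, false, false, false, false, false, false, false, false, false,
  false, false, false, false, false, false, false, true, true, true, false, false, false, true,
  true, true, false, false, false, true, true, true, true, true, true, true, true, true, true,
  true, true, true, true, true, true, true, true, true, true, true, true, true, true, true, true,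
  true, true, true, true, false, false, false, false, false, false, false, false, false, true,
  true, true, true, false, false, false, false, false, false, false, false, false, false, false,
  false, false, false, false, false, false, false, false, false, false, false, false, false,
  false, false, false, false, false, false, false, false, false, false, false, false, false,
  false, false, false, true, true, true, false, false, false, true, true, true, false, false,
  false, false, false, false]

def nbrL : List (List ℕ) := [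
  [30, 52, 71, 94], [32, 52, 53, 71], [53, 54, 71, 73], [34, 54, 56, 73], [56, 58, 73, 75],
  [36, 58, 38, 75], [38, 61, 75, 77], [43, 61, 63, 77], [63, 64, 77, 79], [45, 64, 66, 79],
  [66, 67, 79, 81], [47, 67, 69, 81], [49, 51, 69, 81], [30, 31, 72], [33, 31, 35, 72],
  [35, 55, 72, 74], [37, 55, 57, 74], [57, 59, 74, 76], [38, 59, 60, 76], [60, 62, 76, 78],
  [43, 62, 44, 78], [44, 65, 78, 80], [46, 65, 48, 80], [48, 68, 80, 82], [50, 68, 70, 82],
  [51, 70, 82, 88], [30, 31, 32, 33], [32, 33, 34, 35], [34, 35, 36, 37], [36, 37, 38],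
  [26, 0, 13], [26, 13, 14], [26, 27, 1], [26, 27, 14], [27, 28, 3], [27, 28, 14, 15],
  [28, 29, 5], [28, 29, 16], [29, 18, 5, 6], [43, 44, 45, 46], [45, 46, 47, 48],
  [47, 48, 49, 50], [49, 50, 51], [39, 7, 20], [39, 20, 21], [39, 40, 9], [39, 40, 22],
  [40, 41, 11], [40, 41, 22, 23], [41, 42, 12], [41, 42, 24], [42, 12, 25], [0, 1], [1, 2],
  [2, 3], [15, 16], [3, 4], [16, 17], [4, 5], [17, 18], [18, 19], [6, 7], [19, 20], [7, 8],
  [8, 9], [21, 22], [9, 10], [10, 11], [23, 24], [11, 12], [24, 25], [0, 1, 2, 83],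
  [13, 14, 15, 89], [2, 3, 4, 83], [15, 16, 17, 89], [4, 5, 6, 83], [17, 18, 19, 90],
  [6, 7, 8, 84], [19, 20, 21, 90], [8, 9, 10, 84], [21, 22, 23, 91], [10, 11, 12, 85],
  [23, 24, 25, 91], [71, 73, 75, 86], [77, 79, 86, 87], [81, 87, 88, 287], [83, 84], [84, 85],
  [85, 25], [72, 74, 92, 94], [76, 78, 92, 93], [80, 82, 93, 285], [89, 90], [90, 91], [89, 0],
  [125, 147, 166, 189], [127, 147, 148, 166], [148, 149, 166, 168], [129, 149, 151, 168],
  [151, 153, 168, 170], [131, 153, 133, 170], [133, 156, 170, 172], [138, 156, 158, 172],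
  [158, 159, 172, 174], [140, 159, 161, 174], [161, 162, 174, 176], [142, 162, 164, 176],
  [144, 146, 164, 176], [125, 126, 167], [128, 126, 130, 167], [130, 150, 167, 169],
  [132, 150, 152, 169], [152, 154, 169, 171], [133, 154, 155, 171], [155, 157, 171, 173],
  [138, 157, 139, 173], [139, 160, 173, 175], [141, 160, 143, 175], [143, 163, 175, 177],
  [145, 163, 165, 177], [146, 165, 177, 183], [125, 126, 127, 128], [127, 128, 129, 130],
  [129, 130, 131, 132], [131, 132, 133], [121, 95, 108], [121, 108, 109], [121, 122, 96],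
  [121, 122, 109], [122, 123, 98], [122, 123, 109, 110], [123, 124, 100], [123, 124, 111],
  [124, 113, 100, 101], [138, 139, 140, 141], [140, 141, 142, 143], [142, 143, 144, 145],
  [144, 145, 146], [134, 102, 115], [134, 115, 116], [134, 135, 104], [134, 135, 117],
  [135, 136, 106], [135, 136, 117, 118], [136, 137, 107], [136, 137, 119], [137, 107, 120],
  [95, 96], [96, 97], [97, 98], [110, 111], [98, 99], [111, 112], [99, 100], [112, 113],
  [113, 114], [101, 102], [114, 115], [102, 103], [103, 104], [116, 117], [104, 105], [105, 106],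
  [118, 119], [106, 107], [119, 120], [95, 96, 97, 178], [108, 109, 110, 184], [97, 98, 99, 178],
  [110, 111, 112, 184], [99, 100, 101, 178], [112, 113, 114, 185], [101, 102, 103, 179],
  [114, 115, 116, 185], [103, 104, 105, 179], [116, 117, 118, 186], [105, 106, 107, 180],
  [118, 119, 120, 186], [166, 168, 170, 181], [172, 174, 181, 182], [176, 182, 183, 285],
  [178, 179], [179, 180], [180, 120], [167, 169, 187, 189], [171, 173, 187, 188],
  [175, 177, 188, 286], [184, 185], [185, 186], [184, 95], [220, 242, 261, 284],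
  [222, 242, 243, 261], [243, 244, 261, 263], [224, 244, 246, 263], [246, 248, 263, 265],
  [226, 248, 228, 265], [228, 251, 265, 267], [233, 251, 253, 267], [253, 254, 267, 269],
  [235, 254, 256, 269], [256, 257, 269, 271], [237, 257, 259, 271], [239, 241, 259, 271],
  [220, 221, 262], [223, 221, 225, 262], [225, 245, 262, 264], [227, 245, 247, 264],
  [247, 249, 264, 266], [228, 249, 250, 266], [250, 252, 266, 268], [233, 252, 234, 268],
  [234, 255, 268, 270], [236, 255, 238, 270], [238, 258, 270, 272], [240, 258, 260, 272],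
  [241, 260, 272, 278], [220, 221, 222, 223], [222, 223, 224, 225], [224, 225, 226, 227],
  [226, 227, 228], [216, 190, 203], [216, 203, 204], [216, 217, 191], [216, 217, 204],
  [217, 218, 193], [217, 218, 204, 205], [218, 219, 195], [218, 219, 206], [219, 208, 195, 196],
  [233, 234, 235, 236], [235, 236, 237, 238], [237, 238, 239, 240], [239, 240, 241],
  [229, 197, 210], [229, 210, 211], [229, 230, 199], [229, 230, 212], [230, 231, 201],
  [230, 231, 212, 213], [231, 232, 202], [231, 232, 214], [232, 202, 215], [190, 191],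
  [191, 192], [192, 193], [205, 206], [193, 194], [206, 207], [194, 195], [207, 208], [208, 209],
  [196, 197], [209, 210], [197, 198], [198, 199], [211, 212], [199, 200], [200, 201], [213, 214],
  [201, 202], [214, 215], [190, 191, 192, 273], [203, 204, 205, 279], [192, 193, 194, 273],
  [205, 206, 207, 279], [194, 195, 196, 273], [207, 208, 209, 280], [196, 197, 198, 274],
  [209, 210, 211, 280], [198, 199, 200, 274], [211, 212, 213, 281], [200, 201, 202, 275],
  [213, 214, 215, 281], [261, 263, 265, 276], [267, 269, 276, 277], [271, 277, 278, 286],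
  [273, 274], [274, 275], [275, 215], [262, 264, 282, 284], [266, 268, 282, 283],
  [270, 272, 283, 287], [279, 280], [280, 281], [279, 190], [91, 180], [186, 275], [281, 85]]

def segs : List (Pt × Pt) := [
  ((40, 30), (40, 20)), ((40, 30), (48, 28)), ((40, 30), (34, 38)), ((40, 30), (46, 38)),
  ((40, 46), (34, 38)), ((40, 46), (46, 38)), ((40, 46), (34, 54)), ((40, 46), (46, 54)),
  ((40, 62), (34, 54)), ((40, 62), (46, 54)), ((40, 62), (34, 70)), ((40, 62), (46, 70)),
  ((40, 78), (34, 70)), ((40, 78), (46, 70)), ((40, 78), (40, 88)), ((40, 126), (40, 116)),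
  ((40, 126), (48, 124)), ((40, 126), (34, 134)), ((40, 126), (46, 134)), ((40, 142), (34, 134)),
  ((40, 142), (46, 134)), ((40, 142), (34, 150)), ((40, 142), (46, 150)), ((40, 158), (34, 150)),
  ((40, 158), (46, 150)), ((40, 158), (34, 166)), ((40, 158), (46, 166)), ((40, 174), (34, 166)),
  ((40, 174), (46, 166)), ((40, 174), (40, 184)), ((20, 20), (40, 20)), ((20, 38), (34, 38)),
  ((20, 54), (34, 54)), ((20, 70), (34, 70)), ((20, 116), (40, 116)), ((20, 134), (34, 134)),
  ((20, 150), (34, 150)), ((20, 170), (34, 166)), ((20, 170), (40, 184)), ((60, 16), (40, 20)),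
  ((60, 38), (46, 38)), ((60, 70), (46, 70)), ((60, 88), (40, 88)), ((60, 116), (40, 116)),
  ((60, 134), (46, 134)), ((60, 166), (46, 166)), ((60, 184), (40, 184)), ((20, 20), (23, 29)),
  ((20, 38), (23, 29)), ((60, 16), (48, 28)), ((60, 38), (48, 28)), ((20, 38), (23, 42)),
  ((20, 46), (23, 42)), ((60, 38), (46, 54)), ((60, 62), (46, 54)), ((20, 46), (23, 50)),
  ((20, 54), (23, 50)), ((60, 62), (57, 66)), ((60, 70), (57, 66)), ((20, 54), (23, 58)),
  ((20, 62), (23, 58)), ((60, 70), (57, 74)), ((60, 78), (57, 74)), ((20, 62), (23, 66)),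
  ((20, 70), (23, 66)), ((60, 78), (57, 83)), ((60, 88), (57, 83)), ((20, 70), (40, 88)),
  ((20, 100), (40, 88)), ((60, 88), (57, 94)), ((60, 100), (57, 94)), ((20, 100), (23, 108)),
  ((20, 116), (23, 108)), ((60, 100), (57, 108)), ((60, 116), (57, 108)), ((20, 116), (23, 120)),
  ((20, 124), (23, 120)), ((60, 116), (48, 124)), ((60, 128), (48, 124)), ((20, 124), (23, 129)),
  ((20, 134), (23, 129)), ((60, 128), (57, 131)), ((60, 134), (57, 131)), ((20, 134), (23, 138)),
  ((20, 142), (23, 138)), ((60, 134), (46, 150)), ((60, 158), (46, 150)), ((20, 142), (23, 146)),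
  ((20, 150), (23, 146)), ((60, 158), (57, 162)), ((60, 166), (57, 162)), ((20, 150), (23, 160)),
  ((20, 170), (23, 160)), ((60, 166), (57, 175)), ((60, 184), (57, 175)), ((20, 20), (14, 38)),
  ((60, 16), (66, 38)), ((20, 38), (14, 38)), ((60, 38), (66, 38)), ((20, 46), (14, 38)),
  ((60, 62), (66, 38)), ((8, 54), (14, 38)), ((72, 30), (66, 38)), ((20, 46), (14, 54)),
  ((60, 62), (66, 70)), ((20, 54), (14, 54)), ((60, 70), (66, 70)), ((20, 62), (14, 54)),
  ((60, 78), (66, 70)), ((8, 54), (14, 54)), ((72, 30), (66, 70)), ((20, 62), (14, 70)),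
  ((60, 78), (66, 88)), ((20, 70), (14, 70)), ((60, 88), (66, 88)), ((20, 100), (14, 70)),
  ((60, 100), (66, 88)), ((8, 54), (14, 70)), ((72, 100), (66, 88)), ((20, 100), (14, 116)),
  ((60, 100), (66, 116)), ((20, 116), (14, 116)), ((60, 116), (66, 116)), ((20, 124), (14, 116)),
  ((60, 128), (66, 116)), ((8, 125), (14, 116)), ((72, 100), (66, 116)), ((20, 124), (14, 134)),
  ((60, 128), (66, 134)), ((20, 134), (14, 134)), ((60, 134), (66, 134)), ((20, 142), (14, 134)),
  ((60, 158), (66, 134)), ((8, 125), (14, 134)), ((72, 200), (66, 134)), ((20, 142), (14, 150)),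
  ((60, 158), (66, 166)), ((20, 150), (14, 150)), ((60, 166), (66, 166)), ((20, 170), (14, 150)),
  ((60, 184), (66, 166)), ((8, 200), (14, 150)), ((72, 200), (66, 166)), ((8, 54), (4, 90)),
  ((8, 125), (4, 90)), ((8, 125), (4, 160)), ((8, 200), (4, 160)), ((8, 200), (40, 198)),
  ((60, 184), (40, 198)), ((72, 30), (76, 70)), ((72, 100), (76, 70)), ((72, 100), (76, 150)),
  ((72, 200), (76, 150)), ((72, 30), (64, 2)), ((20, 20), (64, 2)), ((140, 30), (140, 20)),
  ((140, 30), (148, 28)), ((140, 30), (134, 38)), ((140, 30), (146, 38)), ((140, 46), (134, 38)),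
  ((140, 46), (146, 38)), ((140, 46), (134, 54)), ((140, 46), (146, 54)), ((140, 62), (134, 54)),
  ((140, 62), (146, 54)), ((140, 62), (134, 70)), ((140, 62), (146, 70)), ((140, 78), (134, 70)),
  ((140, 78), (146, 70)), ((140, 78), (140, 88)), ((140, 126), (140, 116)),
  ((140, 126), (148, 124)), ((140, 126), (134, 134)), ((140, 126), (146, 134)),
  ((140, 142), (134, 134)), ((140, 142), (146, 134)), ((140, 142), (134, 150)),
  ((140, 142), (146, 150)), ((140, 158), (134, 150)), ((140, 158), (146, 150)),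
  ((140, 158), (134, 166)), ((140, 158), (146, 166)), ((140, 174), (134, 166)),
  ((140, 174), (146, 166)), ((140, 174), (140, 184)), ((120, 20), (140, 20)),
  ((120, 38), (134, 38)), ((120, 54), (134, 54)), ((120, 70), (134, 70)),
  ((120, 116), (140, 116)), ((120, 134), (134, 134)), ((120, 150), (134, 150)),
  ((120, 170), (134, 166)), ((120, 170), (140, 184)), ((160, 16), (140, 20)),
  ((160, 38), (146, 38)), ((160, 70), (146, 70)), ((160, 88), (140, 88)),
  ((160, 116), (140, 116)), ((160, 134), (146, 134)), ((160, 166), (146, 166)),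
  ((160, 184), (140, 184)), ((120, 20), (123, 29)), ((120, 38), (123, 29)),
  ((160, 16), (148, 28)), ((160, 38), (148, 28)), ((120, 38), (123, 42)), ((120, 46), (123, 42)),
  ((160, 38), (146, 54)), ((160, 62), (146, 54)), ((120, 46), (123, 50)), ((120, 54), (123, 50)),
  ((160, 62), (157, 66)), ((160, 70), (157, 66)), ((120, 54), (123, 58)), ((120, 62), (123, 58)),
  ((160, 70), (157, 74)), ((160, 78), (157, 74)), ((120, 62), (123, 66)), ((120, 70), (123, 66)),
  ((160, 78), (157, 83)), ((160, 88), (157, 83)), ((120, 70), (140, 88)),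
  ((120, 100), (140, 88)), ((160, 88), (157, 94)), ((160, 100), (157, 94)),
  ((120, 100), (123, 108)), ((120, 116), (123, 108)), ((160, 100), (157, 108)),
  ((160, 116), (157, 108)), ((120, 116), (123, 120)), ((120, 124), (123, 120)),
  ((160, 116), (148, 124)), ((160, 128), (148, 124)), ((120, 124), (123, 129)),
  ((120, 134), (123, 129)), ((160, 128), (157, 131)), ((160, 134), (157, 131)),
  ((120, 134), (123, 138)), ((120, 142), (123, 138)), ((160, 134), (146, 150)),
  ((160, 158), (146, 150)), ((120, 142), (123, 146)), ((120, 150), (123, 146)),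
  ((160, 158), (157, 162)), ((160, 166), (157, 162)), ((120, 150), (123, 160)),
  ((120, 170), (123, 160)), ((160, 166), (157, 175)), ((160, 184), (157, 175)),
  ((120, 20), (114, 38)), ((160, 16), (166, 38)), ((120, 38), (114, 38)), ((160, 38), (166, 38)),
  ((120, 46), (114, 38)), ((160, 62), (166, 38)), ((108, 54), (114, 38)), ((172, 30), (166, 38)),
  ((120, 46), (114, 54)), ((160, 62), (166, 70)), ((120, 54), (114, 54)), ((160, 70), (166, 70)),
  ((120, 62), (114, 54)), ((160, 78), (166, 70)), ((108, 54), (114, 54)), ((172, 30), (166, 70)),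
  ((120, 62), (114, 70)), ((160, 78), (166, 88)), ((120, 70), (114, 70)), ((160, 88), (166, 88)),
  ((120, 100), (114, 70)), ((160, 100), (166, 88)), ((108, 54), (114, 70)),
  ((172, 100), (166, 88)), ((120, 100), (114, 116)), ((160, 100), (166, 116)),
  ((120, 116), (114, 116)), ((160, 116), (166, 116)), ((120, 124), (114, 116)),
  ((160, 128), (166, 116)), ((108, 125), (114, 116)), ((172, 100), (166, 116)),
  ((120, 124), (114, 134)), ((160, 128), (166, 134)), ((120, 134), (114, 134)),
  ((160, 134), (166, 134)), ((120, 142), (114, 134)), ((160, 158), (166, 134)),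
  ((108, 125), (114, 134)), ((172, 200), (166, 134)), ((120, 142), (114, 150)),
  ((160, 158), (166, 166)), ((120, 150), (114, 150)), ((160, 166), (166, 166)),
  ((120, 170), (114, 150)), ((160, 184), (166, 166)), ((108, 200), (114, 150)),
  ((172, 200), (166, 166)), ((108, 54), (104, 90)), ((108, 125), (104, 90)),
  ((108, 125), (104, 160)), ((108, 200), (104, 160)), ((108, 200), (140, 198)),
  ((160, 184), (140, 198)), ((172, 30), (176, 70)), ((172, 100), (176, 70)),
  ((172, 100), (176, 150)), ((172, 200), (176, 150)), ((172, 30), (164, 2)),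
  ((120, 20), (164, 2)), ((240, 30), (240, 20)), ((240, 30), (248, 28)), ((240, 30), (234, 38)),
  ((240, 30), (246, 38)), ((240, 46), (234, 38)), ((240, 46), (246, 38)), ((240, 46), (234, 54)),
  ((240, 46), (246, 54)), ((240, 62), (234, 54)), ((240, 62), (246, 54)), ((240, 62), (234, 70)),
  ((240, 62), (246, 70)), ((240, 78), (234, 70)), ((240, 78), (246, 70)), ((240, 78), (240, 88)),
  ((240, 126), (240, 116)), ((240, 126), (248, 124)), ((240, 126), (234, 134)),
  ((240, 126), (246, 134)), ((240, 142), (234, 134)), ((240, 142), (246, 134)),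
  ((240, 142), (234, 150)), ((240, 142), (246, 150)), ((240, 158), (234, 150)),
  ((240, 158), (246, 150)), ((240, 158), (234, 166)), ((240, 158), (246, 166)),
  ((240, 174), (234, 166)), ((240, 174), (246, 166)), ((240, 174), (240, 184)),
  ((220, 20), (240, 20)), ((220, 38), (234, 38)), ((220, 54), (234, 54)), ((220, 70), (234, 70)),
  ((220, 116), (240, 116)), ((220, 134), (234, 134)), ((220, 150), (234, 150)),
  ((220, 170), (234, 166)), ((220, 170), (240, 184)), ((260, 16), (240, 20)),
  ((260, 38), (246, 38)), ((260, 70), (246, 70)), ((260, 88), (240, 88)),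
  ((260, 116), (240, 116)), ((260, 134), (246, 134)), ((260, 166), (246, 166)),
  ((260, 184), (240, 184)), ((220, 20), (223, 29)), ((220, 38), (223, 29)),
  ((260, 16), (248, 28)), ((260, 38), (248, 28)), ((220, 38), (223, 42)), ((220, 46), (223, 42)),
  ((260, 38), (246, 54)), ((260, 62), (246, 54)), ((220, 46), (223, 50)), ((220, 54), (223, 50)),
  ((260, 62), (257, 66)), ((260, 70), (257, 66)), ((220, 54), (223, 58)), ((220, 62), (223, 58)),
  ((260, 70), (257, 74)), ((260, 78), (257, 74)), ((220, 62), (223, 66)), ((220, 70), (223, 66)),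
  ((260, 78), (257, 83)), ((260, 88), (257, 83)), ((220, 70), (240, 88)),
  ((220, 100), (240, 88)), ((260, 88), (257, 94)), ((260, 100), (257, 94)),
  ((220, 100), (223, 108)), ((220, 116), (223, 108)), ((260, 100), (257, 108)),
  ((260, 116), (257, 108)), ((220, 116), (223, 120)), ((220, 124), (223, 120)),
  ((260, 116), (248, 124)), ((260, 128), (248, 124)), ((220, 124), (223, 129)),
  ((220, 134), (223, 129)), ((260, 128), (257, 131)), ((260, 134), (257, 131)),
  ((220, 134), (223, 138)), ((220, 142), (223, 138)), ((260, 134), (246, 150)),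
  ((260, 158), (246, 150)), ((220, 142), (223, 146)), ((220, 150), (223, 146)),
  ((260, 158), (257, 162)), ((260, 166), (257, 162)), ((220, 150), (223, 160)),
  ((220, 170), (223, 160)), ((260, 166), (257, 175)), ((260, 184), (257, 175)),
  ((220, 20), (214, 38)), ((260, 16), (266, 38)), ((220, 38), (214, 38)), ((260, 38), (266, 38)),
  ((220, 46), (214, 38)), ((260, 62), (266, 38)), ((208, 54), (214, 38)), ((272, 30), (266, 38)),
  ((220, 46), (214, 54)), ((260, 62), (266, 70)), ((220, 54), (214, 54)), ((260, 70), (266, 70)),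
  ((220, 62), (214, 54)), ((260, 78), (266, 70)), ((208, 54), (214, 54)), ((272, 30), (266, 70)),
  ((220, 62), (214, 70)), ((260, 78), (266, 88)), ((220, 70), (214, 70)), ((260, 88), (266, 88)),
  ((220, 100), (214, 70)), ((260, 100), (266, 88)), ((208, 54), (214, 70)),
  ((272, 100), (266, 88)), ((220, 100), (214, 116)), ((260, 100), (266, 116)),
  ((220, 116), (214, 116)), ((260, 116), (266, 116)), ((220, 124), (214, 116)),
  ((260, 128), (266, 116)), ((208, 125), (214, 116)), ((272, 100), (266, 116)),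
  ((220, 124), (214, 134)), ((260, 128), (266, 134)), ((220, 134), (214, 134)),
  ((260, 134), (266, 134)), ((220, 142), (214, 134)), ((260, 158), (266, 134)),
  ((208, 125), (214, 134)), ((272, 200), (266, 134)), ((220, 142), (214, 150)),
  ((260, 158), (266, 166)), ((220, 150), (214, 150)), ((260, 166), (266, 166)),
  ((220, 170), (214, 150)), ((260, 184), (266, 166)), ((208, 200), (214, 150)),
  ((272, 200), (266, 166)), ((208, 54), (204, 90)), ((208, 125), (204, 90)),
  ((208, 125), (204, 160)), ((208, 200), (204, 160)), ((208, 200), (240, 198)),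
  ((260, 184), (240, 198)), ((272, 30), (276, 70)), ((272, 100), (276, 70)),
  ((272, 100), (276, 150)), ((272, 200), (276, 150)), ((272, 30), (264, 2)),
  ((220, 20), (264, 2)), ((72, 200), (90, 204)), ((108, 200), (90, 204)),
  ((172, 200), (190, 204)), ((208, 200), (190, 204)), ((272, 200), (140, 400)),
  ((8, 200), (140, 400))]

def pos (v : ℕ) : Pt := posL.getD v (0, 0)

def lst (v : ℕ) : Tri := lstL.getD v (0, 0, 0)

def chk : List (Pt × Pt) → Bool
  | [] => true
  | s :: l => l.all (fun t => sep1 s.1 s.2 t.1 t.2 || sep1 t.1 t.2 s.1 s.2) && chk l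

theorem segs_eq : edges.map (fun e => (pos e.1, pos e.2)) = segs := by decide +kernel

theorem pos_nodup : posL.Nodup := by decide +kernel

theorem pos_len : posL.length = 288 := by decide +kernel

theorem edges_col : ∀ e ∈ edges, colL.getD e.1 false = true ∧ colL.getD e.2 false = false := by
  decide +kernel

theorem edges_nbr : ∀ e ∈ edges, e.2 ∈ nbrL.getD e.1 [] ∧ e.1 ∈ nbrL.getD e.2 [] := by
  decide +kernel

theorem edges_lt : ∀ e ∈ edges, e.1 < 288 ∧ e.2 < 288 := by decide +kernel

theorem nbr_len : ∀ v < 288, (nbrL.getD v []).length ≤ 4 := by decide +kernel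

theorem lst_ne : ∀ v < 288, (lst v).1 ≠ (lst v).2.1 ∧ (lst v).1 ≠ (lst v).2.2 ∧
    (lst v).2.1 ≠ (lst v).2.2 := by decide +kernel

theorem lst0 : ∀ p ∈ blockL (1, 2, 3), p.1 < 288 ∧ lst p.1 = p.2 := by decide +kernel

theorem lst1 : ∀ p ∈ blockL (2, 3, 1), 95 + p.1 < 288 ∧ lst (95 + p.1) = p.2 := by decide +kernel

theorem lst2 : ∀ p ∈ blockL (3, 1, 2), 190 + p.1 < 288 ∧ lst (190 + p.1) = p.2 := by
  decide +kernel

end Pool.Agent.MP_cccb39_co
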