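import Mathlib

namespace Pool.Agent.MP_cccb39_co

/-- `f` is a crossing-free drawing of `G` in the plane with straight edges. -/
def IsPlaneDrawing {V : Type} (G : SimpleGraph V) (f : V → ℝ × ℝ) : Prop :=
  Function.Injective f ∧
  (∀ u v w, G.Adj u v → f w ∉ openSegment ℝ (f u) (f v)) ∧
  (∀ u v u' v', G.Adj u v → G.Adj u' v' → s(u, v) ≠ s(u', v') →
    Disjoint (openSegment ℝ (f u) (f v)) (openSegment ℝ (f u') (f v')))

end Pool.Agent.MP_cccb39_co
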