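import Pool.Agent.MP_cccb39_co.Check1
import Pool.Agent.MP_cccb39_co.Check2
import Pool.Agent.MP_cccb39_co.Defs

namespace Pool.Agent.MP_cccb39_co

theorem edges_ne : ∀ e ∈ edges, e.1 ≠ e.2 := by
  intro e he h
  obtain ⟨h1, h2⟩ := edges_col e he
  rw [h, h2] at h1
  exact Bool.false_ne_true h1

def gr : SimpleGraph (Fin 288) where
  Adj u v := (u.val, v.val) ∈ edges ∨ (v.val, u.val) ∈ edges
  symm := ⟨fun _ _ h => h.symm⟩
  loopless := ⟨fun u h => by
    rcases h with h | h <;> exact edges_ne _ h rfl⟩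

def seg (e : ℕ × ℕ) : Set (ℝ × ℝ) := openSegment ℝ (toR (pos e.1)) (toR (pos e.2))

theorem chk_sound : ∀ l : List (Pt × Pt), chk l = true → l.Pairwise (fun s t =>
    Disjoint (openSegment ℝ (toR s.1) (toR s.2)) (openSegment ℝ (toR t.1) (toR t.2)))
  | [], _ => List.Pairwise.nil
  | s :: l, h => by
    simp only [chk, Bool.and_eq_true, List.all_eq_true, Bool.or_eq_true] at h
    refine List.Pairwise.cons (fun t ht => ?_) (chk_sound l h.2)
    rcases h.1 t ht with h | h
    · exact sep1_sound h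
    · exact (sep1_sound h).symm

theorem seg_disj {e e' : ℕ × ℕ} (he : e ∈ edges) (he' : e' ∈ edges) (hne : e ≠ e') :
    Disjoint (seg e) (seg e') := by
  have h := chk_sound segs chk_segs
  rw [← segs_eq, List.pairwise_map] at h
  have : Std.Symm (fun e e' : ℕ × ℕ => Disjoint (seg e) (seg e')) := ⟨fun _ _ h => h.symm⟩
  exact List.Pairwise.forall (R := fun e e' : ℕ × ℕ => Disjoint (seg e) (seg e')) h he he' hne

theorem pos_mem (v : Fin 288) : pos v.val ∈ posL := by
  have : v.val < posL.length := by rw [pos_len]; exact v.2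
  rw [pos, List.getD_eq_getElem _ _ this]
  exact List.getElem_mem _

theorem pt_not_mem {e : ℕ × ℕ} (he : e ∈ edges) (w : Fin 288) : toR (pos w.val) ∉ seg e := by
  have h := chk_pts
  simp only [List.all_eq_true] at h
  have hs : (pos e.1, pos e.2) ∈ segs := by
    rw [← segs_eq]; exact List.mem_map.2 ⟨e, he, rfl⟩
  have := sep1_sound (h _ hs _ (pos_mem w))
  rw [openSegment_same] at this
  exact Set.disjoint_singleton_right.1 this

theorem pos_inj : Function.Injective fun v : Fin 288 => toR (pos v.val) := by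
  intro u v h
  have hu : u.val < posL.length := by rw [pos_len]; exact u.2
  have hv : v.val < posL.length := by rw [pos_len]; exact v.2
  have h' : pos u.val = pos v.val := by
    simp only [toR, Prod.mk.injEq, Nat.cast_inj] at h
    exact Prod.ext h.1 h.2
  rw [pos, pos, List.getD_eq_getElem _ _ hu, List.getD_eq_getElem _ _ hv] at h'
  exact Fin.ext ((List.Nodup.getElem_inj_iff pos_nodup).1 h')

theorem adj_seg {u v : Fin 288} (h : gr.Adj u v) : ∃ e ∈ edges,
    openSegment ℝ (toR (pos u.val)) (toR (pos v.val)) = seg e ∧ s(e.1, e.2) = s(u.val, v.val) := by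
  rcases h with h | h
  · exact ⟨_, h, rfl, rfl⟩
  · exact ⟨_, h, openSegment_symm _ _ _, Sym2.eq_swap⟩

theorem gr_plane : IsPlaneDrawing gr fun v => toR (pos v.val) := by
  refine ⟨pos_inj, fun u v w h => ?_, fun u v u' v' h h' hne => ?_⟩
  · obtain ⟨e, he, hs, -⟩ := adj_seg h
    rw [hs]
    exact pt_not_mem he w
  · obtain ⟨e, he, hs, hq⟩ := adj_seg h
    obtain ⟨e', he', hs', hq'⟩ := adj_seg h'
    rw [hs, hs']
    refine seg_disj he he' fun hee => hne ?_
    rw [hee, hq'] at hq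
    rcases Sym2.eq_iff.1 hq with ⟨h1, h2⟩ | ⟨h1, h2⟩
    · rw [Fin.ext h1, Fin.ext h2]
    · rw [Fin.ext h1, Fin.ext h2]; exact Sym2.eq_swap

theorem gr_bip : gr.IsBipartite := by
  refine ⟨SimpleGraph.Coloring.mk (fun v => if colL.getD v.val false = true then 0 else 1) ?_⟩
  intro u v h
  rcases h with h | h
  · obtain ⟨h1, h2⟩ := edges_col _ h
    simp only at h1 h2
    simp only [h1, h2]
    decide
  · obtain ⟨h1, h2⟩ := edges_col _ h
    simp only at h1 h2
    simp only [h1, h2]
    decide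

theorem gr_deg (v : Fin 288) : (gr.neighborSet v).ncard ≤ 4 := by
  have h1 : (gr.neighborSet v).ncard ≤ ((nbrL.getD v.val []).toFinset : Set ℕ).ncard := by
    refine Set.ncard_le_ncard_of_injOn Fin.val (fun w hw => ?_) Fin.val_injective.injOn
      (Finset.finite_toSet _)
    rcases hw with h | h
    · simpa using (edges_nbr _ h).1
    · simpa using (edges_nbr _ h).2
  rw [Set.ncard_coe_finset] at h1
  exact h1.trans ((List.toFinset_card_le _).trans (nbr_len _ v.2))

def lists (v : Fin 288) : Finset ℕ := {(lst v.val).1, (lst v.val).2.1, (lst v.val).2.2}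

theorem lists_card (v : Fin 288) : (lists v).card = 3 := by
  obtain ⟨h1, h2, h3⟩ := lst_ne _ v.2
  exact Finset.card_eq_three.2 ⟨_, _, _, h1, h2, h3, rfl⟩

theorem no_tri (T : ℕ → Tri) (hm : ∀ v < 288, T v ∈ Pm (lst v))
    (he : ∀ e ∈ edges, cp (T e.1) (T e.2) = true) : False := by
  have b0 := block (1, 2, 3) (by decide) T
    (fun p hp => by rw [← (lst0 p hp).2]; exact hm _ (lst0 p hp).1)
    (fun e h => he e (by simp only [edges, List.mem_append]; exact .inl (.inl (.inl h))))
  have b1 := block (2, 3, 1) (by decide) (fun i => T (95 + i))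
    (fun p hp => by rw [← (lst1 p hp).2]; exact hm _ (lst1 p hp).1)
    (fun e h => he (95 + e.1, 95 + e.2) (by
      simp only [edges, List.mem_append]
      exact .inl (.inl (.inr (List.mem_map.2 ⟨e, h, rfl⟩)))))
  have b2 := block (3, 1, 2) (by decide) (fun i => T (190 + i))
    (fun p hp => by rw [← (lst2 p hp).2]; exact hm _ (lst2 p hp).1)
    (fun e h => he (190 + e.1, 190 + e.2) (by
      simp only [edges, List.mem_append]
      exact .inl (.inr (List.mem_map.2 ⟨e, h, rfl⟩))))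
  have hj : ∀ e ∈ [(91, 285), (180, 285), (186, 286), (275, 286), (281, 287), (85, 287)],
      cp (T e.1) (T e.2) = true := fun e h => he e (List.mem_append_right _ h)
  simp only [List.forall_mem_cons] at hj
  obtain ⟨e0, e1, e2, e3, e4, e5, -⟩ := hj
  have j0 := junction (1, 2, 3) (by decide) _ (hm 91 (by decide)) _ (hm 285 (by decide)) _
    (hm 180 (by decide)) e0 e1
  have j1 := junction (2, 3, 1) (by decide) _ (hm 186 (by decide)) _ (hm 286 (by decide)) _
    (hm 275 (by decide)) e2 e3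
  have j2 := junction (3, 1, 2) (by decide) _ (hm 281 (by decide)) _ (hm 287 (by decide)) _
    (hm 85 (by decide)) e4 e5
  simp only [Nat.reduceAdd] at b0 b1 b2 j0 j1 j2
  rw [b0] at j0
  rw [b1, j0] at j1
  rw [b2, j1] at j2
  simp at j2

theorem gr_no : ¬∃ c : Fin 3 → Fin 288 → ℕ, (∀ i v, c i v ∈ lists v) ∧
    (∀ i u v, gr.Adj u v → c i u ≠ c i v) ∧ ∀ i j v, i ≠ j → c i v ≠ c j v := by
  rintro ⟨c, h1, h2, h3⟩
  refine no_tri (fun v => if h : v < 288 then (c 0 ⟨v, h⟩, c 1 ⟨v, h⟩, c 2 ⟨v, h⟩) else (0, 0, 0))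
    (fun v hv => ?_) (fun e he => ?_)
  · simp only [hv, dif_pos]
    exact mem_Pm (h1 0 ⟨v, hv⟩) (h1 1 ⟨v, hv⟩) (h1 2 ⟨v, hv⟩) (h3 _ _ _ (by decide))
      (h3 _ _ _ (by decide)) (h3 _ _ _ (by decide))
  · obtain ⟨l1, l2⟩ := edges_lt e he
    have ha : gr.Adj ⟨e.1, l1⟩ ⟨e.2, l2⟩ := Or.inl he
    simp only [l1, l2, dif_pos]
    exact cp_of_ne (h2 0 _ _ ha) (h2 1 _ _ ha) (h2 2 _ _ ha)

end Pool.Agent.MP_cccb39_co
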