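import Mathlib

namespace Pool.Agent.MP_cccb39_co

abbrev Tri := ℕ × ℕ × ℕ

def Pm (l : Tri) : List Tri :=
  [(l.1, l.2.1, l.2.2), (l.1, l.2.2, l.2.1), (l.2.1, l.1, l.2.2), (l.2.1, l.2.2, l.1),
    (l.2.2, l.1, l.2.1), (l.2.2, l.2.1, l.1)]

def cp (p q : Tri) : Bool := !(Nat.beq p.1 q.1) && !(Nat.beq p.2.1 q.2.1) && !(Nat.beq p.2.2 q.2.2)

def ori (p : Tri) (u v : ℕ) : Bool :=
  (Nat.beq p.1 u && Nat.beq p.2.1 v) || (Nat.beq p.2.1 u && Nat.beq p.2.2 v) ||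
    (Nat.beq p.2.2 u && Nat.beq p.1 v)

def sp (p q : Tri) (c : ℕ) : Bool :=
  (Nat.beq p.1 c && Nat.beq q.1 c) || (Nat.beq p.2.1 c && Nat.beq q.2.1 c) ||
    (Nat.beq p.2.2 c && Nat.beq q.2.2 c)

def cols : List (ℕ × ℕ × ℕ) := [(1, 2, 3), (2, 3, 1), (3, 1, 2)]

theorem hardA : ∀ c ∈ cols, ∀ p ∈ Pm (0, c.1, c.2.1), ∀ q ∈ Pm (0, c.1, c.2.1),
    cp p q = true → ori q 0 c.1 = ori p 0 c.1 := by decide +kernel

theorem hardB : ∀ c ∈ cols, ∀ p ∈ Pm (0, c.1, c.2.2), ∀ q ∈ Pm (0, c.1, c.2.2),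
    cp p q = true → ori q 0 c.1 = ori p 0 c.1 := by decide +kernel

theorem linkA : ∀ c ∈ cols, ∀ p ∈ Pm (0, c.1, c.2.1), ∀ q ∈ Pm (0, c.1, c.2.1),
    ∀ w ∈ Pm (0, c.1, c.2.2), cp p w = true → cp q w = true → ori p 0 c.1 ≠ ori w 0 c.1 →
    ori q 0 c.1 ≠ ori w 0 c.1 → q = p := by decide +kernel

theorem linkB : ∀ c ∈ cols, ∀ p ∈ Pm (0, c.1, c.2.2), ∀ q ∈ Pm (0, c.1, c.2.2),
    ∀ w ∈ Pm (0, c.1, c.2.1), cp p w = true → cp q w = true → ori p 0 c.1 ≠ ori w 0 c.1 →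
    ori q 0 c.1 ≠ ori w 0 c.1 → q = p := by decide +kernel

theorem both : ∀ c ∈ cols, ∀ p ∈ Pm (0, c.1, c.2.1), ∀ q ∈ Pm (0, c.1, c.2.2),
    sp p q 0 = true → sp p q c.1 = true → ori p 0 c.1 = ori q 0 c.1 := by decide +kernel

def W3 (l p q r : Tri) : Prop := ∃ w ∈ Pm l, cp p w = true ∧ cp q w = true ∧ cp r w = true

instance (l p q r : Tri) : Decidable (W3 l p q r) := by unfold W3; infer_instance

def Gad (A B : Tri) (y0 x y a b : ℕ) : Prop :=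
  ∀ p ∈ Pm A, ∀ q ∈ Pm B, ori p 0 y0 ≠ ori q 0 y0 → sp p q y = false →
    ∀ x1 ∈ Pm (y, b, 4), W3 (y, a, 4) p q x1 → W3 B q q x1 →
    ∀ x2 ∈ Pm (y, a, b), W3 (y, b, 4) p x1 x2 → W3 (x, a, 4) q x1 x2 →
    ∀ x3 ∈ Pm (y, a, 4), W3 (x, a, b) p x2 x3 → W3 B q x2 x3 →
    ∀ x4 ∈ Pm (y, a, b), W3 (x, a, 4) p x3 x4 → W3 (x, b, 4) q x3 x4 → W3 A p q x4 → False

instance (A B : Tri) (y0 x y a b : ℕ) : Decidable (Gad A B y0 x y a b) := by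
  unfold Gad; infer_instance

theorem gad0 : ∀ c ∈ cols, Gad (0, c.1, c.2.1) (0, c.1, c.2.2) c.1 0 c.1 c.2.1 c.2.2 := by
  decide +kernel

theorem gad1 : ∀ c ∈ cols, Gad (0, c.1, c.2.1) (0, c.1, c.2.2) c.1 c.1 0 c.2.1 c.2.2 := by
  decide +kernel

theorem junction : ∀ c ∈ cols, ∀ p ∈ Pm (0, c.1, c.2.1), ∀ w ∈ Pm (0, c.1, c.2.1),
    ∀ q ∈ Pm (0, c.2.1, c.1), cp p w = true → cp q w = true →
    ori q 0 c.2.1 = !(ori p 0 c.1) := by decide +kernel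

theorem mem_Pm {l : Tri} {a b c : ℕ} (ha : a ∈ ({l.1, l.2.1, l.2.2} : Finset ℕ))
    (hb : b ∈ ({l.1, l.2.1, l.2.2} : Finset ℕ)) (hc : c ∈ ({l.1, l.2.1, l.2.2} : Finset ℕ))
    (hab : a ≠ b) (hac : a ≠ c) (hbc : b ≠ c) : (a, b, c) ∈ Pm l := by
  simp only [Finset.mem_insert, Finset.mem_singleton] at ha hb hc
  rcases ha with rfl | rfl | rfl <;> rcases hb with hb | hb | hb <;> rcases hc with hc | hc | hc <;>
    simp_all [Pm]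

theorem cp_of_ne {p q : Tri} (h1 : p.1 ≠ q.1) (h2 : p.2.1 ≠ q.2.1) (h3 : p.2.2 ≠ q.2.2) :
    cp p q = true := by
  have k : ∀ a b : ℕ, a ≠ b → Nat.beq a b = false := fun a b h => by
    cases hb : Nat.beq a b
    · rfl
    · exact absurd (Nat.eq_of_beq_eq_true hb) h
  simp [cp, k _ _ h1, k _ _ h2, k _ _ h3]

end Pool.Agent.MP_cccb39_co
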